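import Pool.Agent.W31.LD.Defs

set_option autoImplicit false

namespace Pool.Agent.W75.LD.Slack

theorem key (n p s r th : ℝ) (hn : 100 ≤ n) (hp0 : 0 ≤ p) (hp : p ≤ 1 / 240)
    (hr0 : 0 ≤ r) (hr : r ≤ 20) (hs : 60 * n + 1 ≤ s + r) (hth : th ≤ 8 * p) :
    1 / 2 * Real.exp (-(p * (s - 2))) ≤
      (1 - th) * (1 / 2 * Real.exp (-(p * n / (n + 1) * (s + r - 2)))) := by
  have hn1 : (0 : ℝ) < n + 1 := by linarith
  have hq : p * n / (n + 1) = p - p / (n + 1) := by
    field_simp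
    ring
  have h59 : 59 * p ≤ p / (n + 1) * (s - 2) := by
    have h1 : 59 * (n + 1) ≤ s - 2 := by linarith
    have h2 : p / (n + 1) * (59 * (n + 1)) = 59 * p := by
      field_simp
    have h3 : 0 ≤ p / (n + 1) := div_nonneg hp0 hn1.le
    calc 59 * p = p / (n + 1) * (59 * (n + 1)) := h2.symm
      _ ≤ p / (n + 1) * (s - 2) := mul_le_mul_of_nonneg_left h1 h3
  have hqle : p * n / (n + 1) ≤ p := by
    rw [hq]
    have h3 : 0 ≤ p / (n + 1) := div_nonneg hp0 hn1.le
    linarith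
  have hq0 : 0 ≤ p * n / (n + 1) := by positivity
  have h20 : p * n / (n + 1) * r ≤ 20 * p := by
    calc p * n / (n + 1) * r ≤ p * 20 := mul_le_mul hqle hr hr0 hp0
      _ = 20 * p := by ring
  have hexp : -(p * (s - 2)) ≤ -(39 * p) + -(p * n / (n + 1) * (s + r - 2)) := by
    have e1 : p * n / (n + 1) * (s + r - 2) = (p - p / (n + 1)) * (s - 2) + p * n / (n + 1) * r := by
      rw [← hq]; ring
    rw [e1]
    nlinarith [h59, h20]
  have h39 : Real.exp (-(39 * p)) ≤ 1 - th := by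
    have h1 : 1 + 39 * p ≤ Real.exp (39 * p) := by
      have := Real.add_one_le_exp (39 * p)
      linarith
    have hpos : (0 : ℝ) < 1 + 39 * p := by linarith
    rw [Real.exp_neg]
    have h2 : (Real.exp (39 * p))⁻¹ ≤ (1 + 39 * p)⁻¹ := inv_anti₀ hpos h1
    have h3 : (1 + 39 * p)⁻¹ ≤ 1 - 8 * p := by
      rw [inv_le_iff_one_le_mul₀ hpos]
      nlinarith [mul_nonneg hp0 (sub_nonneg.mpr hp)]
    linarith
  calc 1 / 2 * Real.exp (-(p * (s - 2)))
      ≤ 1 / 2 * Real.exp (-(39 * p) + -(p * n / (n + 1) * (s + r - 2))) := by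
        have := Real.exp_le_exp.mpr hexp
        linarith
    _ = Real.exp (-(39 * p)) * (1 / 2 * Real.exp (-(p * n / (n + 1) * (s + r - 2)))) := by
        rw [Real.exp_add]; ring
    _ ≤ (1 - th) * (1 / 2 * Real.exp (-(p * n / (n + 1) * (s + r - 2)))) :=
        mul_le_mul_of_nonneg_right h39 (by positivity)

theorem done : W31LD.T_Num_slack := by
  refine ⟨100, fun B hB i hi s r hr hs => ?_⟩
  have hBR : (100 : ℝ) ≤ B := by exact_mod_cast hB
  have hiR : (0 : ℝ) ≤ i := Nat.cast_nonneg i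
  have hL0 : 0 ≤ Real.log B := Real.log_nonneg (by linarith)
  have hL1 : Real.log B ≤ B := (Real.log_le_sub_one_of_pos (by linarith)).trans (by linarith)
  have hs1 : s ≠ 0 := by omega
  have hn : (100 : ℝ) ≤ (i : ℝ) + B := by linarith
  have hnpos : (0 : ℝ) < (i : ℝ) + B := by linarith
  have hmu : W31LD.mu B (i + 1) = W31LD.mu B i * ((i : ℝ) + B) / (((i : ℝ) + B) + 1) := by
    unfold W31LD.mu
    push_cast
    have h2 : (i : ℝ) + 1 + B ≠ 0 := by positivity
    have h3 : (i : ℝ) + B + 1 ≠ 0 := by positivity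
    field_simp
    ring
  have hp0 : 0 ≤ W31LD.mu B i := by
    unfold W31LD.mu
    positivity
  have hp : W31LD.mu B i ≤ 1 / 240 := by
    unfold W31LD.mu
    rw [div_le_div_iff₀ (by positivity) (by norm_num)]
    nlinarith
  have hth : W31LD.th B i r ≤ 8 * W31LD.mu B i := by
    unfold W31LD.th
    have : ((3 : ℝ) / 4) ^ r ≤ 1 := pow_le_one₀ (by norm_num) (by norm_num)
    have h8 : 0 ≤ 8 * W31LD.mu B i := by positivity
    nlinarith
  have hsR : 60 * ((i : ℝ) + B) + 1 ≤ (s : ℝ) + r := by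
    have : 60 * (i + B) + 1 ≤ s + r := by omega
    exact_mod_cast this
  have hk := key ((i : ℝ) + B) (W31LD.mu B i) s r (W31LD.th B i r) hn hp0 hp
    (Nat.cast_nonneg r) (by exact_mod_cast hr) hsR hth
  unfold W31LD.gg
  rw [if_neg hs1, if_neg (by omega), hmu]
  push_cast
  exact hk

end Pool.Agent.W75.LD.Slack
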